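import Pool.Agent.U84.AWQ.Stm

/-!
# Project AWQ, package MAIN1: off-diagonal corners are small if alternative (A) fails everywhere
(adapted from `Pool.Agent.R456.CL.Main1`)
-/

set_option autoImplicit false

namespace Pool.Agent.U364.AWQ

open Pool.Agent.R456.CL Pool.Agent.U84.AWQ

universe u

section
variable {A : Type u} [CStarAlgebra A]

lemma pj_star {p : A} (hp : PJ p) : star p = p := hp.isSelfAdjoint.star_eq
lemma pj_mul {p : A} (hp : PJ p) : p * p = p := hp.isIdempotentElem.eq

lemma pj_mk {p : A} (h1 : p * p = p) (h2 : star p = p) : PJ p := ⟨h1, h2⟩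

lemma le_symm {p q : A} (hp : PJ p) (hq : PJ q) (h : p * q = p) : q * p = p := by
  have := congrArg star h
  rwa [star_mul, pj_star hp, pj_star hq] at this

lemma norm_pj {p : A} (hp : PJ p) : ‖p‖ ≤ 1 := by
  have h := CStarRing.norm_star_mul_self (x := p)
  rw [pj_star hp, pj_mul hp] at h
  nlinarith [norm_nonneg p]

lemma pj_zero_of_norm {p : A} (hp : PJ p) (h1 : ‖p‖ < 1) : p = 0 := by
  have h := CStarRing.norm_star_mul_self (x := p)
  rw [pj_star hp, pj_mul hp] at h
  have : ‖p‖ = 0 := by
    by_contra hne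
    have h3 : 0 < ‖p‖ := lt_of_le_of_ne (norm_nonneg p) (Ne.symm hne)
    nlinarith
  exact norm_eq_zero.mp this

lemma pj_sub {p q : A} (hp : PJ p) (hq : PJ q) (h : p * q = p) : PJ (q - p) := by
  have h' := le_symm hp hq h
  refine pj_mk ?_ ?_
  · rw [mul_sub, sub_mul, sub_mul, pj_mul hp, pj_mul hq, h, h']; abel
  · rw [star_sub, pj_star hp, pj_star hq]

/-- partial isometry facts -/
lemma piso_right {v p : A} (hp : PJ p) (h : star v * v = p) : v * p = v := by
  have h1 : star (v * p - v) * (v * p - v) = 0 := by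
    have : star (v * p - v) * (v * p - v) = p * (star v * v) * p - p * (star v * v)
        - (star v * v) * p + star v * v := by
      rw [star_sub, star_mul, pj_star hp]; noncomm_ring
    rw [this, h, pj_mul hp, pj_mul hp]; abel
  have h2 := CStarRing.star_mul_self_eq_zero_iff (v * p - v) |>.mp h1
  exact sub_eq_zero.mp h2

lemma piso_pj {v p : A} (hp : PJ p) (h : star v * v = p) : PJ (v * star v) := by
  refine pj_mk ?_ ?_
  · calc v * star v * (v * star v) = v * (star v * v) * star v := by noncomm_ring
      _ = v * p * star v := by rw [h]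
      _ = v * star v := by rw [piso_right hp h]
  · rw [star_mul, star_star]

/-- multiplication by a central projection -/
lemma cp_pj {z p : A} (hz : CP z) (hp : PJ p) : PJ (z * p) := by
  refine pj_mk ?_ ?_
  · calc z * p * (z * p) = z * (p * z) * p := by noncomm_ring
      _ = z * (z * p) * p := by rw [← hz.2 p]
      _ = (z * z) * (p * p) := by noncomm_ring
      _ = z * p := by rw [pj_mul hz.1, pj_mul hp]
  · rw [star_mul, pj_star hz.1, pj_star hp, hz.2]

lemma cp_mul {z : A} (hz : CP z) (x y : A) : (z * x) * (z * y) = z * (x * y) := by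
  calc (z * x) * (z * y) = z * (x * z) * y := by noncomm_ring
    _ = z * (z * x) * y := by rw [← hz.2 x]
    _ = (z * z) * (x * y) := by noncomm_ring
    _ = z * (x * y) := by rw [pj_mul hz.1]

lemma cp_star {z : A} (hz : CP z) (x : A) : star (z * x) = z * star x := by
  rw [star_mul, pj_star hz.1, hz.2]

/-- a copy of `g` below the cut projection gives alternative (A) -/
lemma ca_of_sub (hcut : PCutU A) {g T : A} (hg : PJ g) {K : ℝ} {e : A} (he : PJ e) (heg : Le e g)
    {k s : A} (hk : PJ k) (hs : star s = s)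
    (hssx : s * s * (star ((g - e) * T * e) * ((g - e) * T * e)) = k)
    (hsxs : s * (star ((g - e) * T * e) * ((g - e) * T * e)) * s = k) (hK : ‖s‖ ≤ K)
    (hsub : Sub g k) : CA K g T := by
  obtain ⟨x, hx⟩ : ∃ x, x = (g - e) * T * e := ⟨_, rfl⟩
  rw [← hx] at hssx hsxs
  have hge : g * e = e := le_symm he hg heg
  have hxe : x * e = x := by rw [hx, mul_assoc _ e e, pj_mul he]
  have hgx : (g - e) * x = x := by
    rw [hx, ← mul_assoc, ← mul_assoc, pj_mul (pj_sub he hg heg)]
  have hke : k * e = k := by
    rw [← hssx, mul_assoc, mul_assoc (star x) x e, hxe]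
  obtain ⟨v, hv1, hv2⟩ := hsub
  obtain ⟨e1, he1⟩ : ∃ e1, e1 = v * star v := ⟨_, rfl⟩
  rw [← he1] at hv2
  have hpe1 : PJ e1 := by rw [he1]; exact piso_pj hg hv1
  have hke1 : k * e1 = e1 := le_symm hpe1 hk hv2
  have he1e : e1 * e = e1 := by rw [← hv2, mul_assoc, hke]
  have hee1 : e * e1 = e1 := le_symm hpe1 he he1e
  obtain ⟨z, hz⟩ : ∃ z, z = x * e1 := ⟨_, rfl⟩
  have hze1 : z * e1 = z := by rw [hz, mul_assoc, pj_mul hpe1]
  -- left inverse of z
  have hy : (e1 * s * s * star x) * z = e1 := by
    have : (e1 * s * s * star x) * z = e1 * (s * s * (star x * x)) * e1 := by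
      rw [hz]; noncomm_ring
    rw [this, hssx, mul_assoc, hke1, pj_mul hpe1]
  have hny : ‖e1 * s * s * star x‖ ≤ K := by
    have h1 : ‖x * s‖ ≤ 1 := by
      have h2 := CStarRing.norm_star_mul_self (x := x * s)
      have h3 : star (x * s) * (x * s) = k := by
        rw [star_mul, hs, ← hsxs]; noncomm_ring
      rw [h3] at h2
      have h4 := norm_pj hk
      nlinarith [norm_nonneg (x * s)]
    have h2 : ‖s * star x‖ ≤ 1 := by
      have h3 : s * star x = star (x * s) := by rw [star_mul, hs]
      rw [h3, norm_star]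
      exact h1
    calc ‖e1 * s * s * star x‖ = ‖e1 * (s * (s * star x))‖ := by
          congr 1; noncomm_ring
      _ ≤ ‖e1‖ * (‖s‖ * ‖s * star x‖) := by
          refine (norm_mul_le _ _).trans ?_
          gcongr
          exact norm_mul_le _ _
      _ ≤ 1 * (K * 1) := by
          have h5 := norm_pj hpe1
          gcongr
          exact (norm_nonneg s).trans hK
      _ = K := by ring
  obtain ⟨k', s', hk', hks, hsk, hss, -, hssz, -, hszs, hnorm, -⟩ := hcut z
    (1 / (2 * (‖e1 * s * s * star x‖ + 1))) (by positivity)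
  have hk'e1 : k' * e1 = k' := by
    rw [← hssz, mul_assoc, mul_assoc (star z) z e1, hze1]
  have hkk : k' = e1 := by
    have hpd : PJ (e1 - k') := pj_sub hk' hpe1 hk'e1
    have h1 : e1 - k' = (e1 * s * s * star x) * (z * (1 - k')) := by
      rw [← mul_assoc, hy, mul_sub, mul_one, le_symm hk' hpe1 hk'e1]
    have h2 : ‖e1 - k'‖ < 1 := by
      rw [h1]
      refine (norm_mul_le _ _).trans_lt ?_
      have h3 : ‖e1 * s * s * star x‖ * ‖z * (1 - k')‖ ≤ ‖e1 * s * s * star x‖ *
          (1 / (2 * (‖e1 * s * s * star x‖ + 1))) := by gcongr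
      refine h3.trans_lt ?_
      have := norm_nonneg (e1 * s * s * star x)
      rw [mul_one_div, div_lt_one (by positivity)]
      linarith
    exact (sub_eq_zero.mp (pj_zero_of_norm hpd h2)).symm
  rw [hkk] at hks hsk hssz hszs
  -- the partial isometry w
  obtain ⟨w, hw⟩ : ∃ w, w = z * s' := ⟨_, rfl⟩
  have hww : star w * w = e1 := by
    rw [hw, star_mul, hss, ← hszs]; noncomm_ring
  have hwe1 : w * e1 = w := by rw [hw, mul_assoc, hsk]
  obtain ⟨f1, hf1⟩ : ∃ f1, f1 = w * star w := ⟨_, rfl⟩
  have hpf1 : PJ f1 := by rw [hf1]; exact piso_pj hpe1 hww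
  have hf1z : f1 = z * s' * s' * star z := by
    rw [hf1, hw, star_mul, hss]; noncomm_ring
  have hgef1 : (g - e) * f1 = f1 := by
    rw [hf1z, hz]
    have : (g - e) * (x * e1 * s' * s' * star (x * e1))
        = ((g - e) * x) * e1 * s' * s' * star (x * e1) := by noncomm_ring
    rw [this, hgx]
  have hpge : PJ (g - e) := pj_sub he hg heg
  have hf1ge : f1 * (g - e) = f1 := by
    have := congrArg star hgef1
    rwa [star_mul, pj_star hpf1, pj_star hpge] at this
  have hgeg : (g - e) * g = g - e := by rw [sub_mul, pj_mul hg, heg]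
  have hf1g : f1 * g = f1 := by
    rw [← hf1ge, mul_assoc, hgeg]
  have he1f1 : e1 * f1 = 0 := by
    have h1 : e1 * (g - e) = 0 := by
      rw [mul_sub, he1e]
      have : e1 * g = e1 := by
        rw [← he1e, mul_assoc, heg]
      rw [this, sub_self]
    rw [← hgef1, ← mul_assoc, h1, zero_mul]
  have hf1T : f1 * T * e1 = z := by
    have h1 : f1 * T * e1 = f1 * ((g - e) * T * e) * e1 := by
      calc f1 * T * e1 = (f1 * (g - e)) * T * (e * e1) := by rw [hf1ge, hee1]
        _ = f1 * ((g - e) * T * e) * e1 := by noncomm_ring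
    rw [h1, ← hx, mul_assoc, ← hz, hf1z]
    have : z * s' * s' * star z * z = z * (s' * s' * (star z * z)) := by noncomm_ring
    rw [this, hssz, hze1]
  have hys : s' * s' * star z = (e1 * s * s * star x) * f1 := by
    have h1 : (e1 * s * s * star x) * f1 = ((e1 * s * s * star x) * z) * s' * s' * star z := by
      rw [hf1z]; noncomm_ring
    rw [h1, hy, hks]
  refine ⟨e1, f1, s' * s' * star z, hpe1, hpf1, ?_, hf1g, he1f1, ⟨v, hv1, he1.symm⟩,
    ⟨w * v, ?_, ?_⟩, ?_, ?_, ?_, ?_, ?_⟩
  · show e1 * g = e1
    rw [← he1e, mul_assoc, heg]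
  · rw [star_mul]
    have : star v * star w * (w * v) = star v * (star w * w) * v := by noncomm_ring
    rw [this, hww, he1]
    have : star v * (v * star v) * v = (star v * v) * (star v * v) := by noncomm_ring
    rw [this, hv1, pj_mul hg]
  · rw [star_mul]
    have : w * v * (star v * star w) = w * (v * star v) * star w := by noncomm_ring
    rw [this, ← he1, hwe1, hf1]
  · rw [← mul_assoc, ← mul_assoc, hks]
  · rw [hf1z]
    have : s' * s' * star z * (z * s' * s' * star z)
        = (s' * s' * (star z * z)) * s' * s' * star z := by noncomm_ring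
    rw [this, hssz, hks]
  · rw [hf1T, ← hssz]; noncomm_ring
  · rw [hf1T, hf1z]; noncomm_ring
  · rw [hys]
    refine (norm_mul_le _ _).trans ?_
    calc ‖e1 * s * s * star x‖ * ‖f1‖ ≤ K * 1 := by
          have h5 := norm_pj hpf1
          have h6 := (norm_nonneg (e1 * s * s * star x)).trans hny
          gcongr
      _ = K := mul_one K

/-- the cut projection is nowhere as large as `g` -/
lemma small (hcut : PCutU A) {g T : A} (hg : PJ g) {K : ℝ}
    (hA : ∀ z : A, CP z → z * g ≠ 0 → ¬ CA K (z * g) (z * T)) {e : A} (he : PJ e) (heg : Le e g)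
    {k s : A} (hk : PJ k) (hs : star s = s)
    (hssx : s * s * (star ((g - e) * T * e) * ((g - e) * T * e)) = k)
    (hsxs : s * (star ((g - e) * T * e) * ((g - e) * T * e)) * s = k) (hK : ‖s‖ ≤ K) :
    Le k e ∧ Small g k := by
  constructor
  · show k * e = k
    rw [← hssx, mul_assoc]
    congr 1
    rw [mul_assoc, mul_assoc _ e e, pj_mul he]
  · intro z hz hzg hsub
    have heg' : e * g = e := heg
    have e1 : (z * g - z * e) * (z * T) * (z * e) = z * ((g - e) * T * e) := by
      rw [← mul_sub, cp_mul hz, cp_mul hz]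
    refine hA z hz hzg (ca_of_sub hcut (cp_pj hz hg) (cp_pj hz he) ?_ (cp_pj hz hk)
      (s := z * s) ?_ ?_ ?_ ?_ hsub)
    · show z * e * (z * g) = z * e
      rw [cp_mul hz, heg']
    · rw [cp_star hz, hs]
    · rw [e1, cp_star hz, cp_mul hz, cp_mul hz, cp_mul hz, hssx]
    · rw [e1, cp_star hz, cp_mul hz, cp_mul hz, cp_mul hz, hsxs]
    · refine (norm_mul_le _ _).trans ?_
      calc ‖z‖ * ‖s‖ ≤ 1 * ‖s‖ := by
            gcongr
            exact norm_pj hz.1
        _ ≤ K := by rw [one_mul]; exact hK

theorem main1 (hcut : PCutU A) (hjoin : PJoinL A) : PMain1L A := by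
  intro ε hε g T hPI hgT hTg hA e he heg
  have hg : PJ g := hPI.1
  have hpge : PJ (g - e) := pj_sub he hg heg
  have hge : g * e = e := le_symm he hg heg
  have h24 : 2 / ε ≤ 4 / ε := by gcongr; norm_num
  -- the first cut
  obtain ⟨k, s, hk, hks, hsk, hss, hkx, hssx, hxss, hsxs, hnorm, hsn⟩ :=
    hcut ((g - e) * T * e) ε hε
  obtain ⟨hke, hksm⟩ := small hcut hg hA he heg hk hss hssx hsxs (hsn.trans h24)
  -- the second cut
  have hle' : Le (g - e) g := by
    show (g - e) * g = g - e
    rw [sub_mul, pj_mul hg, heg]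
  have hgge : g - (g - e) = e := by abel
  obtain ⟨k', s', hk', hks', hsk', hss', hkx', hssx', hxss', hsxs', hnorm', hsn'⟩ :=
    hcut ((g - (g - e)) * T * (g - e)) ε hε
  obtain ⟨hke', hksm'⟩ := small hcut hg hA hpge hle' hk' hss' hssx' hsxs' (hsn'.trans h24)
  rw [hgge] at hkx' hssx' hxss' hsxs' hnorm'
  obtain ⟨x', hx'⟩ : ∃ x', x' = e * T * (g - e) := ⟨_, rfl⟩
  rw [← hx'] at hkx' hssx' hxss' hsxs' hnorm'
  obtain ⟨w, hw⟩ : ∃ w, w = x' * s' := ⟨_, rfl⟩
  have hww : star w * w = k' := by
    rw [hw, star_mul, hss', ← hsxs']; noncomm_ring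
  obtain ⟨l, hl⟩ : ∃ l, l = w * star w := ⟨_, rfl⟩
  have hpl : PJ l := by rw [hl]; exact piso_pj hk' hww
  have hwk : w * k' = w := by rw [hw, mul_assoc, hsk']
  have hex' : e * x' = x' := by rw [hx', ← mul_assoc, ← mul_assoc, pj_mul he]
  have hew : e * w = w := by rw [hw, ← mul_assoc, hex']
  have hel : e * l = l := by rw [hl, ← mul_assoc, hew]
  have hle : l * e = l := by
    have := congrArg star hel
    rwa [star_mul, pj_star hpl, pj_star he] at this
  have hlg : l * g = l := by rw [← hle, mul_assoc, heg]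
  have hlsm : Small g l := by
    rintro z hz hzg ⟨u, hu1, hu2⟩
    apply hksm' z hz hzg
    have hpzg : PJ (z * g) := cp_pj hz hg
    have hpu : PJ (u * star u) := piso_pj hpzg hu1
    have hzlu : z * l * u = u := by
      have h1 : z * l * (u * star u) = u * star u := le_symm hpu (cp_pj hz hpl) hu2
      have h2 : u * star u * u = u := by
        rw [mul_assoc, hu1]; exact piso_right hpzg hu1
      calc z * l * u = z * l * (u * star u * u) := by rw [h2]
        _ = (z * l * (u * star u)) * u := by noncomm_ring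
        _ = u := by rw [h1, h2]
    have hzu : z * u = u := by
      calc z * u = z * (z * l * u) := by rw [hzlu]
        _ = (z * z) * l * u := by noncomm_ring
        _ = u := by rw [pj_mul hz.1, hzlu]
    have hlu : l * u = u := by
      calc l * u = l * (z * u) := by rw [hzu]
        _ = (l * z) * u := by noncomm_ring
        _ = u := by rw [← hz.2 l, hzlu]
    refine ⟨star w * u, ?_, ?_⟩
    · rw [star_mul, star_star]
      have : star u * w * (star w * u) = star u * ((w * star w) * u) := by noncomm_ring
      rw [this, ← hl, hlu, hu1]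
    · rw [star_mul, star_star]
      have h1 : star u * z = star u := by
        have := congrArg star hzu
        rwa [star_mul, pj_star hz.1] at this
      have h2 : star u * w * (z * k') = star u * w := by
        calc star u * w * (z * k') = star u * (w * z) * k' := by noncomm_ring
          _ = star u * (z * w) * k' := by rw [← hz.2 w]
          _ = (star u * z) * (w * k') := by noncomm_ring
          _ = star u * w := by rw [h1, hwk]
      calc star w * u * (star u * w) * (z * k') = star w * u * (star u * w * (z * k')) := by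
            noncomm_ring
        _ = star w * u * (star u * w) := by rw [h2]
  have hn2 : ‖(1 - l) * x'‖ ≤ ε := by
    have h1 : (1 - l) * x' = (1 - l) * (x' * (1 - k')) := by
      have h2 : l * (x' * k') = x' * k' := by
        have : l * (x' * k') = x' * (s' * s' * (star x' * x')) * k' := by
          rw [hl, hw, star_mul, hss']; noncomm_ring
        rw [this, hssx', mul_assoc, pj_mul hk']
      have h3 : (1 - l) * (x' * (1 - k')) = (1 - l) * x' - (x' * k' - l * (x' * k')) := by
        noncomm_ring
      rw [h3, h2, sub_self, sub_zero]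
    rw [h1]
    refine (norm_mul_le _ _).trans ?_
    have hp1 : PJ (1 - l) := by
      refine pj_sub hpl (pj_mk (one_mul 1) (star_one A)) (mul_one l)
    calc ‖1 - l‖ * ‖x' * (1 - k')‖ ≤ 1 * ε := by
          gcongr
          exact norm_pj hp1
      _ = ε := one_mul ε
  -- join
  have hkg : Le k g := by
    show k * g = k
    rw [← hke, mul_assoc, heg]
  obtain ⟨c, hc, hcg, hkc, hlc, hcsm⟩ := hjoin g k l hPI hk hpl hkg hlg hksm hlsm
  refine ⟨c, hc, hcg, hcsm, ?_, ?_⟩
  · have h1 : (g - e) * T * e * (g - c) = ((g - e) * T * e * (1 - k)) * (g - c) := by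
      have h2 : k * (g - c) = 0 := by rw [mul_sub, hkg, hkc, sub_self]
      have h3 : (g - e) * T * e * (1 - k) * (g - c)
          = (g - e) * T * e * (g - c) - (g - e) * T * e * (k * (g - c)) := by noncomm_ring
      rw [h3, h2, mul_zero, sub_zero]
    rw [h1]
    refine (norm_mul_le _ _).trans ?_
    calc _ ≤ ε * 1 := by
          gcongr
          exact norm_pj (pj_sub hc hg hcg)
      _ = ε := mul_one ε
  · have h0 : (g - e) * star T * e = star x' := by
      rw [hx', star_mul, star_mul, pj_star he, pj_star hpge]; noncomm_ring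
    rw [h0]
    have h1 : star x' * (g - c) = (star ((1 - l) * x')) * (g - c) := by
      have h2 : l * (g - c) = 0 := by rw [mul_sub, hlg, hlc, sub_self]
      have h3 : star ((1 - l) * x') * (g - c) = star x' * (g - c) - star x' * (l * (g - c)) := by
        rw [star_mul, star_sub, star_one, pj_star hpl]; noncomm_ring
      rw [h3, h2, mul_zero, sub_zero]
    rw [h1]
    refine (norm_mul_le _ _).trans ?_
    calc _ ≤ ε * 1 := by
          rw [norm_star]
          gcongr
          exact norm_pj (pj_sub hc hg hcg)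
      _ = ε := mul_one ε

end

theorem t_MAIN1 : S_MAIN1.{u} := fun _ _ hcut hjoin => main1 hcut hjoin

end Pool.Agent.U364.AWQ
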